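import Pool.Agent.X223.MuI.Main

/-!
# The levels `Σ_3` and `Π_3` of the modal mu-calculus do not have Craig interpolation

`Fml` are the formulas of the modal `μ`-calculus in negation normal form, with numbered
propositional letters and numbered fixpoint variables (which occur only positively), `eval M a v` is
the truth set of `a` in the Kripke model `M` for the values `v` of the free fixpoint variables, and
`Level n true`, `Level n false` are the classes `Σ_n`, `Π_n` of Niwiński's syntactic hierarchy:
`Level 0` is the set of fixpoint-free formulas, and `Level (n + 1) m` is the least set which contains
`Σ_n ∪ Π_n` and is closed under `∧`, `∨`, `◇`, `□`, under `μ` (for `m = true`) or `ν` (for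
`m = false`), and under substitution without variable capture. `Craig F` says that the set `F` of
formulas has Craig interpolation.

The theorem gives formulas `a` in `Σ_2` and `b` in `Π_2` such that `a → b` is valid but has no
interpolant in `Σ_3`. Since `Σ_3` contains `Σ_2` and `Π_2`, it does not have Craig interpolation,
and by duality neither has `Π_3`.

The formula `a` says that the letter `4` marks a winning strategy of the first player in the parity
game with priorities `0, 1, 2` described by the letters `0` to `3`, and `¬ b` says that the letter
`5` marks a winning strategy of the second player. That all marked paths satisfy the parity
condition is expressible in `Σ_2`, whatever the number of priorities is. The implication is valid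
because the two strategies have a common path. On labelled binary trees one of the players has a
winning strategy, so that an interpolant would define the set of the labelled trees on which the
first player wins. A formula of `Σ_3` cannot do this: its evaluation on a tree is a parity game with
three priorities of the dual kind (all formulas of `Σ_3` are brought to a normal form, a system of
equations with three priorities), and there is a labelled tree which is, as a game, the dual of
the evaluation game of the formula on this very tree (the diagonal argument of Arnold).
-/

universe u

open Pool.Agent.X223.MuI

namespace Pool.Agent.Results.MP_3aa27d_lc.ThirdLevelFails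

/-- **Craig interpolation fails for the third level of the alternation hierarchy.** -/
theorem result :
    (∃ a b : Fml, Level 2 true a ∧ Level 2 false b ∧ ValidImp.{u} a b ∧
      ¬ ∃ c : Fml, Level 3 true c ∧ (∀ p, Occurs p c → Occurs p a ∧ Occurs p b) ∧
        ValidImp.{u} a c ∧ ValidImp.{u} c b) ∧
      ¬ Craig.{u} (Level 3 true) ∧ ¬ Craig.{u} (Level 3 false) := by
  refine ⟨⟨fA, fB, level_fA, level_fB, validImp, ?_⟩, not_craig, not_craig'⟩
  rintro ⟨c, hc, hl, h1, h2⟩
  exact no_interpolant c hc hl h1 h2

end Pool.Agent.Results.MP_3aa27d_lc.ThirdLevelFails
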